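import Pool.Agent.Y52.SJ.Stm2
import Pool.Agent.H809R2.GI.RealUpper

/-!
Gaussian rounding of a matrix with the signs of the Gram matrix.
-/

set_option autoImplicit false

namespace Q169.SJ

open Pool.Agent.Y52.SJ Pool.Agent.H809R2.GI MeasureTheory ProbabilityTheory Finset
open scoped RealInnerProductSpace

theorem mul_arcsin_ge {t : ℝ} (h1 : -1 ≤ t) (h2 : t ≤ 1) : t ^ 2 ≤ t * Real.arcsin t := by
  have key : ∀ s : ℝ, 0 ≤ s → s ≤ 1 → s ≤ Real.arcsin s := by
    intro s hs0 hs1
    have h3 := Real.sin_le (Real.arcsin_nonneg.mpr hs0)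
    rwa [Real.sin_arcsin (by linarith) hs1] at h3
  rcases le_total 0 t with h | h
  · nlinarith [key t h h2]
  · have h3 := key (-t) (by linarith) (by linarith)
    rw [Real.arcsin_neg] at h3
    nlinarith

theorem main : S_RND := by
  intro V _ _ _ m w x y hw hx hy
  let _ : MeasurableSpace V := borel V
  have : BorelSpace V := ⟨rfl⟩
  have hb : ∀ i j, -1 ≤ (⟪x i, y j⟫ : ℝ) ∧ (⟪x i, y j⟫ : ℝ) ≤ 1 := by
    intro i j
    have h := abs_real_inner_le_norm (x i) (y j)
    rw [hx, hy, mul_one] at h
    exact abs_le.mp h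
  have hint : ∀ i j, Integrable (fun g => sg ⟪x i, g⟫ * sg ⟪y j, g⟫) (stdGaussian V) := by
    intro i j
    refine Integrable.of_bound (C := 1) ?_ (Filter.Eventually.of_forall fun g => ?_)
    · exact ((measurable_sg.comp (by fun_prop)).mul
        (measurable_sg.comp (by fun_prop))).aestronglyMeasurable
    · rw [norm_mul, Real.norm_eq_abs, Real.norm_eq_abs, abs_sg, abs_sg, mul_one]
  set f : V → ℝ := fun g => ∑ i, ∑ j, w i j * ⟪x i, y j⟫ * sg ⟪x i, g⟫ * sg ⟪y j, g⟫ with hf
  have hfi : Integrable f (stdGaussian V) := by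
    refine integrable_finsetSum _ fun i _ => integrable_finsetSum _ fun j _ => ?_
    refine ((hint i j).const_mul (w i j * ⟪x i, y j⟫)).congr
      (Filter.Eventually.of_forall fun g => ?_)
    simp only
    ring
  have hI : ∫ g, f g ∂(stdGaussian V) =
      ∑ i, ∑ j, w i j * ⟪x i, y j⟫ * (2 / Real.pi * Real.arcsin ⟪x i, y j⟫) := by
    rw [hf, integral_finsetSum]
    · refine sum_congr rfl fun i _ => ?_
      rw [integral_finsetSum]
      · refine sum_congr rfl fun j _ => ?_
        rw [← grothendieck_identity (x i) (y j) (hx i) (hy j), ← integral_const_mul]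
        congr 1
        funext g
        ring
      · intro j _
        refine ((hint i j).const_mul (w i j * ⟪x i, y j⟫)).congr
          (Filter.Eventually.of_forall fun g => ?_)
        simp only
        ring
    · intro i _
      refine integrable_finsetSum _ fun j _ => ?_
      refine ((hint i j).const_mul (w i j * ⟪x i, y j⟫)).congr
        (Filter.Eventually.of_forall fun g => ?_)
      simp only
      ring
  obtain ⟨g, hg⟩ := exists_integral_le hfi
  refine ⟨fun i => sg ⟪x i, g⟫, fun j => sg ⟪y j, g⟫, fun i => abs_sg _, fun j => abs_sg _, ?_⟩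
  rw [hI] at hg
  refine le_trans ?_ hg
  rw [mul_sum]
  refine sum_le_sum fun i _ => ?_
  rw [mul_sum]
  refine sum_le_sum fun j _ => ?_
  have h1 := mul_arcsin_ge (hb i j).1 (hb i j).2
  have h2 : (0 : ℝ) ≤ 2 / Real.pi * w i j := mul_nonneg (by positivity) (hw i j)
  nlinarith [mul_le_mul_of_nonneg_left h1 h2]

end Q169.SJ
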